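import Pool.Agent.Helper18.SU.Goals

/-!
# Packet TAIL (lower tail of the number of labels)
-/

set_option autoImplicit false

namespace Pool.Agent.Helper9.SU

open Pool.Agent.Helper18.SU Finset

lemma exp_neg_le {e : ℝ} (h0 : 0 ≤ e) (h1 : e ≤ 1 / 2) : Real.exp (-(e + e ^ 2)) ≤ 1 - e := by
  have h2 := Real.quadratic_le_exp_of_nonneg (x := e + e ^ 2) (by positivity)
  have h3 : 1 ≤ Real.exp (e + e ^ 2) * (1 - e) := by
    have h4 : (1 + (e + e ^ 2) + (e + e ^ 2) ^ 2 / 2) * (1 - e) ≤
        Real.exp (e + e ^ 2) * (1 - e) :=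
      mul_le_mul_of_nonneg_right h2 (by linarith)
    refine le_trans ?_ h4
    have h5 : (1 + (e + e ^ 2) + (e + e ^ 2) ^ 2 / 2) * (1 - e) =
        1 + e ^ 2 / 2 * (1 - e - e ^ 2 - e ^ 3) := by ring
    rw [h5]
    have h6 : e ^ 2 ≤ 1 / 4 := by nlinarith
    have h7 : e ^ 3 ≤ 1 / 8 := by nlinarith
    have h8 : 0 ≤ e ^ 2 / 2 * (1 - e - e ^ 2 - e ^ 3) := by
      apply mul_nonneg (by positivity)
      linarith
    linarith
  rw [Real.exp_neg]
  rw [inv_le_iff_one_le_mul₀ (Real.exp_pos _)]
  linarith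

/-- The exponential moment. -/
lemma chern {V : Type} [Fintype V] [DecidableEq V] (w : V → Fin 3 → ℝ)
    (h0 : ∀ x l, 0 ≤ w x l) (h1 : ∀ x, ∑ l, w x l = 1) (B : Finset V) (l : Fin 3) (r : ℕ)
    {e : ℝ} (he0 : 0 ≤ e) (he1 : e ≤ 1 / 2) :
    ∑ o : V → Fin 3, (if (B.filter (fun y => o y = l)).card < r then ∏ x, w x (o x) else 0)
      ≤ Real.exp ((e + e ^ 2) * r - e * ∑ y ∈ B, w y l) := by
  have hW : ∀ o : V → Fin 3, 0 ≤ ∏ x, w x (o x) := fun o => Finset.prod_nonneg (fun x _ => h0 x _)
  have hp : 0 < 1 - e := by linarith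
  have hq : 1 - e ≤ 1 := by linarith
  -- the moment
  have k1 : ∑ o : V → Fin 3, (∏ x, w x (o x)) * (1 - e) ^ (B.filter (fun y => o y = l)).card =
      ∏ x, ∑ j, w x j * (if x ∈ B ∧ j = l then 1 - e else 1) := by
    rw [Finset.prod_univ_sum, Fintype.piFinset_univ]
    apply Finset.sum_congr rfl
    intro o _
    rw [Finset.prod_mul_distrib]
    congr 1
    rw [Finset.prod_ite, Finset.prod_const_one, mul_one, Finset.prod_const]
    congr 2
    ext y
    simp
  have k2 : ∀ x, ∑ j, w x j * (if x ∈ B ∧ j = l then 1 - e else 1) =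
      if x ∈ B then 1 - e * w x l else 1 := by
    intro x
    by_cases hx : x ∈ B
    · have h2 : ∀ j, w x j * (if x ∈ B ∧ j = l then 1 - e else 1) =
          w x j - (if j = l then e * w x l else 0) := by
        intro j
        by_cases hj : j = l
        · subst hj
          rw [if_pos ⟨hx, rfl⟩, if_pos rfl]; ring
        · rw [if_neg (fun h => hj h.2), if_neg hj]; ring
      rw [if_pos hx, Finset.sum_congr rfl (fun j _ => h2 j), Finset.sum_sub_distrib, h1,
        Finset.sum_ite_eq' Finset.univ l, if_pos (Finset.mem_univ l)]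
    · rw [if_neg hx]
      have h2 : ∀ j, w x j * (if x ∈ B ∧ j = l then 1 - e else 1) = w x j := by
        intro j
        rw [if_neg (fun h => hx h.1), mul_one]
      rw [Finset.sum_congr rfl (fun j _ => h2 j), h1]
  have k3 : ∏ x, (if x ∈ B then 1 - e * w x l else 1) ≤ Real.exp (- (e * ∑ y ∈ B, w y l)) := by
    rw [Finset.prod_ite_mem, Finset.univ_inter, Finset.mul_sum, ← Finset.sum_neg_distrib,
      Real.exp_sum]
    apply Finset.prod_le_prod
    · intro x _
      have h2 : w x l ≤ 1 := by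
        rw [← h1 x]
        exact Finset.single_le_sum (fun j _ => h0 x j) (Finset.mem_univ l)
      have h3 := h0 x l
      nlinarith
    · intro x _
      have := Real.add_one_le_exp (-(e * w x l))
      linarith
  have k4 : (∑ o : V → Fin 3, (if (B.filter (fun y => o y = l)).card < r then
      ∏ x, w x (o x) else 0)) * (1 - e) ^ r ≤ Real.exp (- (e * ∑ y ∈ B, w y l)) := by
    refine le_trans ?_ k3
    rw [← Finset.prod_congr rfl (fun x _ => k2 x), ← k1, Finset.sum_mul]
    apply Finset.sum_le_sum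
    intro o _
    split_ifs with h
    · apply mul_le_mul_of_nonneg_left _ (hW o)
      exact pow_le_pow_of_le_one hp.le hq h.le
    · rw [zero_mul]
      exact mul_nonneg (hW o) (pow_nonneg hp.le _)
  have k5 : Real.exp (-((e + e ^ 2) * r)) ≤ (1 - e) ^ r := by
    have h2 := pow_le_pow_left₀ (Real.exp_pos _).le (exp_neg_le he0 he1) r
    rw [← Real.exp_nat_mul] at h2
    refine le_trans (le_of_eq ?_) h2
    congr 1; ring
  have k6 : 0 ≤ ∑ o : V → Fin 3, (if (B.filter (fun y => o y = l)).card < r then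
      ∏ x, w x (o x) else 0) := by
    apply Finset.sum_nonneg
    intro o _
    split_ifs
    · exact hW o
    · exact le_rfl
  have k7 := (mul_le_mul_of_nonneg_left k5 k6).trans k4
  have k8 : Real.exp ((e + e ^ 2) * r - e * ∑ y ∈ B, w y l) =
      Real.exp (- (e * ∑ y ∈ B, w y l)) * Real.exp ((e + e ^ 2) * r) := by
    rw [← Real.exp_add]; congr 1; ring
  rw [k8]
  rw [Real.exp_neg ((e + e ^ 2) * r)] at k7
  have h9 := Real.exp_pos ((e + e ^ 2) * r)
  rwa [← div_eq_mul_inv, div_le_iff₀ h9] at k7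

theorem TAIL : TAIL_stmt := by
  classical
  intro V _ _ w h0 h1 B l r L hL hu
  have hs : 0 ≤ Real.sqrt (L * r) := Real.sqrt_nonneg _
  by_cases hr : r = 0
  · subst hr
    have : ∑ o : V → Fin 3, (if (B.filter (fun y => o y = l)).card < 0 then
        ∏ x, w x (o x) else 0) = 0 := by
      apply Finset.sum_eq_zero
      intro o _
      rw [if_neg (Nat.not_lt_zero _)]
    rw [this]
    exact (Real.exp_pos _).le
  have hr' : (0 : ℝ) < r := by exact_mod_cast Nat.pos_of_ne_zero hr
  have key : ∀ e : ℝ, 0 ≤ e → e ≤ 1 / 2 →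
      e ^ 2 * r - e * (2 * Real.sqrt (L * r) + 4 * L) ≤ -L →
      ∑ o : V → Fin 3, (if (B.filter (fun y => o y = l)).card < r then ∏ x, w x (o x) else 0)
        ≤ Real.exp (-L) := by
    intro e he0 he1 h
    refine (chern w h0 h1 B l r he0 he1).trans ?_
    apply Real.exp_le_exp.2
    have h2 := mul_le_mul_of_nonneg_left hu he0
    nlinarith
  rcases hL.eq_or_lt with hL0 | hL0
  · apply key 0 le_rfl (by norm_num)
    rw [← hL0]; simp
  · by_cases hc : (r : ℝ) < 4 * L
    · apply key (1 / 2) (by norm_num) le_rfl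
      nlinarith
    · push Not at hc
      have h2 : 0 ≤ L / r := by positivity
      have h3 : L / r ≤ 1 / 4 := by
        rw [div_le_iff₀ hr']; linarith
      have h4 : Real.sqrt (L / r) ^ 2 = L / r := Real.sq_sqrt h2
      have h5 : Real.sqrt (L / r) * Real.sqrt (L * r) = L := by
        rw [← Real.sqrt_mul h2]
        have : L / r * (L * r) = L ^ 2 := by field_simp
        rw [this, Real.sqrt_sq hL]
      have h6 : 0 ≤ Real.sqrt (L / r) := Real.sqrt_nonneg _
      apply key (Real.sqrt (L / r)) h6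
      · nlinarith
      · rw [h4, mul_add, show Real.sqrt (L / r) * (2 * Real.sqrt (L * r)) =
          2 * (Real.sqrt (L / r) * Real.sqrt (L * r)) by ring, h5]
        have h7 : L / r * r = L := by field_simp
        rw [h7]
        nlinarith [mul_nonneg h6 hL]

end Pool.Agent.Helper9.SU
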